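import Pool.Agent.N929.OM.Stm

/-!
# Changing the face in the middle of a good pattern (project OM, piece TOG)
-/

set_option autoImplicit false
set_option linter.unusedVariables false

namespace Pool.Agent.N458.OM

open Pool.Agent.N929.ON (St rt front Val step Tch)
open Pool.Agent.N929.OM

theorem flip_ne (f g : ℤ × ℤ) (σ : ℤ × ℤ → Bool) (h : g ≠ f) :
    Pool.Agent.N929.ON.flip f σ g = σ g := by
  unfold Pool.Agent.N929.ON.flip
  exact Function.update_of_ne h _ _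

theorem flip_same (f : ℤ × ℤ) (σ : ℤ × ℤ → Bool) :
    Pool.Agent.N929.ON.flip f σ f = !σ f := by
  unfold Pool.Agent.N929.ON.flip
  exact Function.update_self _ _ _

theorem pt_add (σ : ℤ × ℤ → Bool) (i t : ℕ) :
    (step σ)^[t] (pt σ i) = pt σ (i + t) := by
  unfold pt
  rw [← Function.iterate_add_apply, Nat.add_comm]

theorem Q_mono {k k' : ℤ} (h : k ≤ k') {f : ℤ × ℤ} (hf : Q k f) : Q k' f := by
  obtain ⟨h1, h2, h3⟩ := hf
  exact ⟨h1.trans h, h2.trans h, by omega⟩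

theorem fronts {σ : ℤ × ℤ → Bool} {k : ℤ} {i p : ℕ} {s : St} (hit : Hit σ k i s)
    (hp : ∀ t < p, Q (k + 3) (front ((step σ)^[t] s))) :
    ∀ i' < i + p, Q (k + 3) (front (pt σ i')) := by
  intro i' hi'
  rcases Nat.lt_or_ge i' i with h | h
  · exact Q_mono (by omega) (hit.2.2 i' h)
  · obtain ⟨t, rfl⟩ := Nat.exists_eq_add_of_le h
    rw [← pt_add, hit.1]
    exact hp t (by omega)

theorem transfer {σ σ' : ℤ × ℤ → Bool} {k : ℤ} {i p q t₀ N : ℕ} (hN : N = i + p + t₀)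
    (hf : ∀ i' < i + p, Q (k + 3) (front (pt σ i')))
    (hf' : ∀ i' < i + q, Q (k + 3) (front (pt σ' i')))
    (hs : ∀ t ≤ t₀ + 1, pt σ' (i + q + t) = pt σ (i + p + t)) {k' : ℤ} {s' : St} {i' : ℕ}
    (hk' : k + 3 ≤ k') (h : Hit σ k' i' s') (hi' : i' ≤ N) : ∃ i'', Hit σ' k' i'' s' := by
  have hle : i + p ≤ i' := by
    by_contra hc
    push Not at hc
    have h1 := hf i' hc
    rw [h.1] at h1
    exact h.2.1 (Q_mono hk' h1)
  obtain ⟨t, rfl⟩ := Nat.exists_eq_add_of_le hle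
  refine ⟨i + q + t, ?_, h.2.1, ?_⟩
  · rw [hs t (by omega)]; exact h.1
  · intro i'' hi''
    rcases Nat.lt_or_ge i'' (i + q) with hlt | hge
    · exact Q_mono hk' (hf' i'' hlt)
    · obtain ⟨t', rfl⟩ := Nat.exists_eq_add_of_le hge
      rw [hs t' (by omega)]
      exact h.2.2 _ (by omega)

theorem good_congr {σ σ' : ℤ × ℤ → Bool} {s : St}
    (h : ∀ f ∈ pls s ++ mns s, σ' f = σ f) : Good σ' s ↔ Good σ s := by
  unfold Good
  have h1 : ∀ f ∈ pls s, σ' f = σ f := fun f hf => h f (List.mem_append_left _ hf)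
  have h2 : ∀ f ∈ mns s, σ' f = σ f := fun f hf => h f (List.mem_append_right _ hf)
  constructor
  · rintro ⟨ha, hb⟩
    exact ⟨fun f hf => (h1 f hf).symm.trans (ha f hf), fun f hf => (h2 f hf).symm.trans (hb f hf)⟩
  · rintro ⟨ha, hb⟩
    exact ⟨fun f hf => (h1 f hf).trans (ha f hf), fun f hf => (h2 f hf).trans (hb f hf)⟩

/-- **Changing the face in the middle of a good pattern.** -/
theorem tog (hinj : Pool.Agent.N929.ON.S_INJ) (hexit : S_EXIT) (hhit : S_HIT) (hpat : S_PAT)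
    (hpass : S_PASS) (hsurg : S_SURG) (hedg : S_EDG) : S_TOG := by
  classical
  intro V η σ R hflat hbdy j i s hj hit hgood σ' hσ'
  obtain ⟨k, hk⟩ : ∃ k : ℤ, k = ((3 * j + 1 : ℕ) : ℤ) := ⟨_, rfl⟩
  rw [← hk] at hit ⊢
  have hk3 : k = 3 * (j : ℤ) + 1 := by rw [hk]; push_cast; ring
  have hj0 : (0 : ℤ) ≤ (j : ℤ) := Int.natCast_nonneg j
  have hk1 : 1 ≤ k := by omega
  have hkR : k + 3 ≤ (R : ℤ) := by
    have : ((3 * j + 4 : ℕ) : ℤ) ≤ (R : ℤ) := by exact_mod_cast hj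
    push_cast at this
    omega
  have hR1 : 1 ≤ R := by omega
  obtain ⟨hile, hside, hQ1, hQ2⟩ := hhit.2.1 V η σ R hflat hbdy k hk1 (by omega) i s hit
  obtain ⟨hP1, hmid, hrow, -, -, hnx, -⟩ := hpat k s hk1 hside hQ1 hQ2
  obtain ⟨f, hf⟩ : ∃ f, f = mid s := ⟨_, rfl⟩
  rw [← hf] at hP1 hmid hrow hσ' ⊢
  obtain ⟨hQf, hnQf⟩ := hP1 f (by simp)
  have hQR : Q R f := Q_mono hkR hQf
  have hfV : f ∈ V := (hflat f hQR).1 hrow
  have hdiff : ∀ g, g ≠ f → σ' g = σ g := by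
    intro g hg
    rw [hσ']
    exact flip_ne f g σ hg
  have hsame : σ' f = !σ f := by
    rw [hσ']
    exact flip_same f σ
  have hbdy' : Bdy V η σ' := by
    intro g hg
    rw [hdiff g (fun h => hg (h ▸ hfV))]
    exact hbdy g hg
  have hloc : ∀ g : ℤ × ℤ, Q k g → σ' g = σ g := by
    intro g hg
    refine hdiff g fun h => ?_
    rw [h] at hg
    exact hnQf hg
  obtain ⟨hit', hpteq⟩ := hhit.2.2.1 σ σ' k i s hit hloc
  have hgood' : Good σ' s := by
    refine (good_congr fun g hg => hdiff g fun h => ?_).2 hgood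
    rw [h] at hg
    exact hmid hg
  have hlng : Lng σ' s ↔ ¬ Lng σ s := by
    unfold Lng
    rw [← hf, hsame]
    cases σ f <;> cases decide (s.2 ≠ 4) <;> simp
  have hs3 : s.2 = 0 ∨ s.2 = 2 ∨ s.2 = 4 := by
    rcases hside with h | h | h
    · exact Or.inl h.1
    · exact Or.inr (Or.inl h.1)
    · exact Or.inr (Or.inr h.1)
  -- the passages
  obtain ⟨p, hp⟩ : ∃ p : ℕ, p = (if Lng σ s then 8 else 6) := ⟨_, rfl⟩
  obtain ⟨q, hq⟩ : ∃ q : ℕ, q = (if Lng σ' s then 8 else 6) := ⟨_, rfl⟩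
  obtain ⟨hp1, hp2, hp3⟩ := hpass σ s hs3 hgood p hp
  obtain ⟨hq1, hq2, hq3⟩ := hpass σ' s hs3 hgood' q hq
  rw [← hf] at hp2 hp3 hq2 hq3
  have hfr := fronts hit fun t ht => (hP1 _ (hp2 t ht)).1
  have hfr' := fronts hit' fun t ht => (hP1 _ (hq2 t ht)).1
  have hlen : i + p ≤ len V σ := by
    obtain ⟨i₂, s₂, h1, h2⟩ := hhit.1 V η σ R hflat hbdy (k + 3) (by omega) hkR
    refine le_trans ?_ h2
    by_contra hc
    push Not at hc
    have h3 := hfr i₂ hc
    rw [h1.1] at h3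
    exact h1.2.1 h3
  have hlen' : i + q ≤ len V σ' := by
    obtain ⟨i₂, s₂, h1, h2⟩ := hhit.1 V η σ' R hflat hbdy' (k + 3) (by omega) hkR
    refine le_trans ?_ h2
    by_contra hc
    push Not at hc
    have h3 := hfr' i₂ hc
    rw [h1.1] at h3
    exact h1.2.1 h3
  obtain ⟨hv, hstart, -, hin, hout⟩ := hexit V η σ R hR1 hflat hbdy
  obtain ⟨hv', -, -, hin', hout'⟩ := hexit V η σ' R hR1 hflat hbdy'
  obtain ⟨hs, hloops⟩ := hsurg V σ σ' f hdiff start s (nx s) i p q hv hv' hstart hit.1 hit'.1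
    hp1 hq1 (fun i' h1 h2 => hin i' h1 (h2.trans hlen)) (fun i' h1 h2 => hin' i' h1 (h2.trans hlen'))
    hp3 hq3
  obtain ⟨t₀, ht₀⟩ := Nat.exists_eq_add_of_le hlen
  have hs' : ∀ t ≤ t₀ + 1, pt σ' (i + q + t) = pt σ (i + p + t) := by
    refine hs t₀ fun i' h1 h2 => hin i' h1 ?_
    rw [ht₀]
    exact h2
  have hlenq : len V σ' = i + q + t₀ := by
    apply le_antisymm
    · refine Nat.sInf_le ?_
      show ¬ Inn V (pt σ' (i + q + t₀ + 1))
      have h1 := hs' (t₀ + 1) le_rfl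
      rw [← add_assoc, ← add_assoc] at h1
      rw [h1, ← ht₀]
      exact hout
    · by_contra hc
      push Not at hc
      apply hout'
      rcases Nat.lt_or_ge (len V σ' + 1) (i + q) with h | h
      · exact hin' _ (by omega) (by omega)
      · obtain ⟨t, ht⟩ := Nat.exists_eq_add_of_le h
        rw [ht, hs' t (by omega)]
        refine hin _ ?_ (by omega)
        rcases Nat.eq_zero_or_pos p with h0 | h0
        · rw [h0] at hp
          split_ifs at hp
        · omega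
  refine ⟨hfV, hQR, hbdy', hit', hgood', hlng, ?_, hloops, ?_⟩
  · intro hnl
    refine ⟨?_, ?_⟩
    · rw [if_neg hnl] at hp
      rw [if_pos (hlng.2 hnl)] at hq
      rw [hlenq, ht₀, hp, hq]
      omega
    · rw [hσ', hf]
      exact hedg V σ s hs3 (hf ▸ hfV) hgood hnl
  · intro j' hjj' hj'R s'
    obtain ⟨k', hk'⟩ : ∃ k' : ℤ, k' = ((3 * j' + 1 : ℕ) : ℤ) := ⟨_, rfl⟩
    rw [← hk']
    have hk3' : k' = 3 * (j' : ℤ) + 1 := by rw [hk']; push_cast; ring
    have hj'0 : (0 : ℤ) ≤ (j' : ℤ) := Int.natCast_nonneg j'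
    have hk1' : 1 ≤ k' := by omega
    have hkR' : k' + 3 ≤ (R : ℤ) := by
      have : ((3 * j' + 4 : ℕ) : ℤ) ≤ (R : ℤ) := by exact_mod_cast hj'R
      push_cast at this
      omega
    have hjj : (j' : ℤ) ≠ (j : ℤ) := by exact_mod_cast hjj'
    constructor
    · rcases lt_or_gt_of_ne hjj with hlt | hgt
      · have hl : ∀ g : ℤ × ℤ, Q k' g → σ' g = σ g := fun g hg => hloc g (Q_mono (by omega) hg)
        constructor
        · rintro ⟨i', h⟩
          exact ⟨i', (hhit.2.2.1 σ' σ k' i' s' h (fun g hg => (hl g hg).symm)).1⟩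
        · rintro ⟨i', h⟩
          exact ⟨i', (hhit.2.2.1 σ σ' k' i' s' h hl).1⟩
      · have hkk : k + 3 ≤ k' := by omega
        constructor
        · rintro ⟨i', h⟩
          exact transfer hlenq hfr' hfr (fun t ht => (hs' t ht).symm) hkk h
            (hhit.2.1 V η σ' R hflat hbdy' k' hk1' (by omega) i' s' h).1
        · rintro ⟨i', h⟩
          exact transfer ht₀ hfr hfr' hs' hkk h
            (hhit.2.1 V η σ R hflat hbdy k' hk1' (by omega) i' s' h).1
    · rintro ⟨i', h⟩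
      obtain ⟨-, hside', hQ1', hQ2'⟩ := hhit.2.1 V η σ R hflat hbdy k' hk1' (by omega) i' s' h
      obtain ⟨hP1', -⟩ := hpat k' s' hk1' hside' hQ1' hQ2'
      have hcong : ∀ g ∈ pls s' ++ mns s' ++ [mid s'], σ' g = σ g := by
        intro g hg
        refine hdiff g fun hgf => ?_
        obtain ⟨h1, h2⟩ := hP1' g hg
        rw [hgf] at h1 h2
        rcases lt_or_gt_of_ne hjj with hlt | hgt
        · exact hnQf (Q_mono (by omega) h1)
        · exact h2 (Q_mono (by omega) hQf)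
      refine ⟨good_congr fun g hg => hcong g (List.mem_append_left _ hg), ?_⟩
      unfold Lng
      rw [hcong (mid s') (by simp)]

end Pool.Agent.N458.OM
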